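import Mathlib
import Pool.Agent.H41.ATW.Pri
import Pool.Agent.H5.ATW2.Ord

open Complex Filter Topology

namespace Pool.Agent.Results.MP_7193be_nt.AutomorphicTwists

open Pool.Agent.H89.EdgeBasic Pool.Agent.H89.EdgeOrd Pool.H42.HW Pool.Agent.H41.ATW

/-- The primes not dividing `N`. -/
abbrev Pr (N : ℕ) : Type := {p : ℕ // p.Prime ∧ ¬ p ∣ N}

/-- The primitive Dirichlet characters, as functions on the natural numbers. -/
abbrev PrimChar : Type :=
  {ψ : ℕ → ℂ // ∃ (q : ℕ) (χ : DirichletCharacter ℂ q),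
    q ≠ 0 ∧ χ.IsPrimitive ∧ ψ = fun n : ℕ => χ n}

/-- The sum of the `n`-th powers of the members of `B`. -/
noncomputable def powerSum (B : Multiset ℂ) (n : ℕ) : ℂ := (B.map fun β => β ^ n).sum

/-- The terms of the logarithm of the Rankin-Selberg product of `B` and the complex conjugate
of `C`; the pair `(p, n)` stands for the prime power `p ^ (n + 1)`. -/
noncomputable def logTerm (N : ℕ) (B C : ℕ → Multiset ℂ) (s : ℂ) (x : Pr N × ℕ) : ℂ :=
  powerSum (B x.1) (x.2 + 1) * (starRingEnd ℂ) (powerSum (C x.1) (x.2 + 1)) *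
    ((x.1 : ℂ) ^ (-s)) ^ (x.2 + 1) / ((x.2 : ℂ) + 1)

/-- A Rankin-Selberg family: `B j p` is the multiset of the Satake parameters at `p` of the member
`j`.  The Rankin-Selberg product of `j` and the conjugate of `j` has at most a simple pole at `1`,
and at all other points `1 + t * I` those of `j` and the conjugate of `k` have neither a pole nor a
zero: their logarithm has bounded real part there; the same for `j ≠ k` and all real `t`. -/
structure RankinSelberg (N : ℕ) {J : Type} (B : J → ℕ → Multiset ℂ) : Prop where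
  small : ∀ (j : J) (p : Pr N), ∀ β ∈ B j p, ‖β‖ ^ 2 < (p : ℝ)
  conv : ∀ (j : J) (h : ℝ), 0 < h → Summable (logTerm N (B j) (B j) (1 + h))
  pole : ∀ j : J, ∃ C : ℝ, ∀ h : ℝ, 0 < h → h ≤ 1 →
    (∑' x, logTerm N (B j) (B j) (1 + h) x).re ≤ Real.log (1 / h) + C
  edge : ∀ (j k : J) (t : ℝ), (j ≠ k ∨ t ≠ 0) → ∃ C : ℝ, ∀ h : ℝ, 0 < h → h ≤ 1 →
    |(∑' x, logTerm N (B j) (B k) (1 + h + t * I) x).re| ≤ C

/-- The Euler product over the primes `p` not dividing `N`, and over `β` in `B p` and `γ` in `C p`,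
of `P_p (β * conj γ * p ^ (-s)) ^ (-1)`. -/
noncomputable def twist (N : ℕ) (P : ℕ → Polynomial ℂ) (B C : ℕ → Multiset ℂ) (s : ℂ) : ℂ :=
  ∏' p : Pr N, ((B p ×ˢ C p).map fun c =>
    ((P p).eval (c.1 * (starRingEnd ℂ) c.2 * (p : ℂ) ^ (-s)))⁻¹).prod

/-- The Rankin-Selberg square: the Euler product over the primes `p` not dividing `N`, over `x` and
`y` in `B p` and over the roots `z` of `P_p`, of `P_p (x * conj (y / z) * p ^ (-s)) ^ (-1)`.  The
`1 / z` are the reciprocal roots of `P_p`. -/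
noncomputable def square (N : ℕ) (P : ℕ → Polynomial ℂ) (B : ℕ → Multiset ℂ) (s : ℂ) : ℂ :=
  ∏' p : Pr N, ((B p ×ˢ (B p ×ˢ (P p).roots)).map fun c =>
    ((P p).eval (c.1 * (starRingEnd ℂ) (c.2.1 / c.2.2) * (p : ℂ) ^ (-s)))⁻¹).prod

/-- For some `C`, `|f (1 + i + h)| ≤ C * h ^ (-r)` for arbitrarily small `h > 0`; for instance if `f`
has a pole of order `r` at `1 + i`. -/
def Growth (i : ℕ) (f : ℂ → ℂ) (r : ℝ) : Prop :=
  ∃ C : ℝ, ∃ᶠ h : ℝ in 𝓝[>] 0, ‖f (1 + (i:ℂ) + (h:ℂ))‖ ≤ C * h ^ (-r)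

variable {N : ℕ}

lemma logTerm_eq (B C : ℕ → Multiset ℂ) (h t : ℝ) (x : Pr N × ℕ) :
    logTerm N B C (1 + h + t * I) x = (w h x : ℂ) * (ps (B x.1) (x.2 + 1) *
      (starRingEnd ℂ) (ps (C x.1) (x.2 + 1)) * ch x.1 t ^ (x.2 + 1)) := by
  rw [logTerm, cpow_split x.1 h t, mul_pow, w]
  simp only [powerSum, ps]
  push_cast
  ring

lemma logTerm_self (B : ℕ → Multiset ℂ) (h : ℝ) (x : Pr N × ℕ) :
    logTerm N B B (1 + h) x = ((w h x * ‖ps (B x.1) (x.2 + 1)‖ ^ 2 : ℝ) : ℂ) := by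
  have h1 := logTerm_eq (N := N) B B h 0 x
  simp only [Complex.ofReal_zero, zero_mul, add_zero] at h1
  rw [h1, ch_zero, one_pow, mul_one, Complex.mul_conj']
  push_cast
  ring

lemma toRS {J : Type} {B : J → ℕ → Multiset ℂ} (hB : RankinSelberg N B) : RS N B where
  small := hB.small
  summ := by
    intro j η hη
    have h1 := hB.conv j η hη
    rw [show logTerm N (B j) (B j) (1 + η) = fun x => _ from funext (logTerm_self (B j) η)] at h1
    exact_mod_cast h1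
  diag := by
    intro j
    obtain ⟨C, hC⟩ := hB.pole j
    refine ⟨C, fun η h0 h1 => ?_⟩
    have h2 := hC η h0 h1
    simp_rw [logTerm_self] at h2
    rwa [← Complex.ofReal_tsum, Complex.ofReal_re] at h2
  cross := by
    intro j k t h
    obtain ⟨C, hC⟩ := hB.edge j k t h
    refine ⟨C, fun η h0 h1 => ?_⟩
    have h2 := hC η h0 h1
    simp_rw [logTerm_eq] at h2
    exact h2

lemma ofRS {J : Type} {B : J → ℕ → Multiset ℂ} (hB : RS N B) : RankinSelberg N B where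
  small := hB.small
  conv := by
    intro j η hη
    have h1 := hB.summ j η hη
    rw [show logTerm N (B j) (B j) (1 + η) = fun x => _ from funext (logTerm_self (B j) η)]
    exact_mod_cast h1
  pole := by
    intro j
    obtain ⟨C, hC⟩ := hB.diag j
    refine ⟨C, fun η h0 h1 => ?_⟩
    have h2 := hC η h0 h1
    simp_rw [logTerm_self]
    rwa [← Complex.ofReal_tsum, Complex.ofReal_re]
  edge := by
    intro j k t h
    obtain ⟨C, hC⟩ := hB.cross j k t h
    refine ⟨C, fun η h0 h1 => ?_⟩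
    simp_rw [logTerm_eq]
    exact hC η h0 h1

lemma twist_eq (P : ℕ → Polynomial ℂ) (B C : ℕ → Multiset ℂ) (s : ℂ) :
    twist N P B C s = EP N P B C s := by
  rw [twist, EP]
  apply tprod_congr
  intro p
  rw [dp, Multiset.map_map]
  rfl

/-- The edge line `Re s = 1 + i/2` of an Euler product of Hasse-Weil type of degree at most `b` and
weight `i`, and of its twists.

(1) The twists by all primitive Dirichlet characters, of all moduli together: if they are
meromorphic at the points of the line, only finitely many pairs (character, point) have a zero or a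
pole, the sum of the squares of all the orders is at most `b ^ 2`, and the order function has
Fourier transform bounded by `b`.  The sum of the squares of the orders is at most `r` if the
Rankin-Selberg square is at most `C * h ^ (-r)` at `1 + i + h` for arbitrarily small `h > 0`
(`r = b ^ 2` has this property).  If this holds for some `r < 2` then at most one pair (character,
point) has a zero or a pole, it is simple, and if the `P_p` are real then the character is real and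
the point is `1 + i/2`.

(2) The twists by the members of any Rankin-Selberg family `(B j)`: the matrix of the numbers
`log |L j k (1 + i/2 + h + (t - t') * I)|` has operator norm at most `b * log (1/h) + C`, and the
sum of the squares of finitely many of the numbers `log |L j k (1 + i/2 + h + t * I)|` is at most
`log |square j (1 + i + h)| * (log (1/h) + C)` (no continuation is assumed); where the functions are
meromorphic, the matrix of the orders at the points `1 + i/2 + (t - t') * I` has operator norm at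
most `b`; for each `j`, if all `L j k` are meromorphic on the line, the sum of the squares of all
their orders is at most `b ^ 2`, and at most `r` if the square of `j` is at most `C * h ^ (-r)` for
arbitrarily small `h`.

(3) The primitive Dirichlet characters are a Rankin-Selberg family. -/
theorem result (N i b : ℕ) (hN : 0 < N) (P : ℕ → Polynomial ℂ)
    (h0 : ∀ p : ℕ, p.Prime → ¬ p ∣ N → (P p).eval 0 = 1)
    (hdeg : ∀ p : ℕ, p.Prime → ¬ p ∣ N → (P p).natDegree ≤ b)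
    (hroots : ∀ p : ℕ, p.Prime → ¬ p ∣ N → ∀ z : ℂ, (P p).IsRoot z →
      (p:ℝ) ^ (-(i:ℝ)/2) ≤ ‖z‖) :
    (Growth i (square N P fun _ => {1}) ((b:ℝ) ^ 2) ∧
      ∀ L : PrimChar → ℂ → ℂ,
      (∀ (ψ : PrimChar) (s : ℂ), 1 + (i:ℝ)/2 < s.re →
        L ψ s = ∏' p : Pr N, ((P p).eval (ψ.1 p * (p:ℂ) ^ (-s)))⁻¹) →
      (∀ (ψ : PrimChar) (s : ℂ), s.re = 1 + (i:ℝ)/2 → MeromorphicAt (L ψ) s) →
      (∀ (ψ : PrimChar) (s : ℂ), s.re = 1 + (i:ℝ)/2 → meromorphicOrderAt (L ψ) s ≠ ⊤) ∧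
      {x : PrimChar × ℂ | x.2.re = 1 + (i:ℝ)/2 ∧ meromorphicOrderAt (L x.1) x.2 ≠ 0}.Finite ∧
      ∑ᶠ x ∈ {x : PrimChar × ℂ | x.2.re = 1 + (i:ℝ)/2},
        (meromorphicOrderAt (L x.1) x.2).untop₀ ^ 2 ≤ (b:ℤ) ^ 2 ∧
      (∀ (a : ℕ) (u : ℝ),
        ‖∑ᶠ x ∈ {x : PrimChar × ℂ | x.2.re = 1 + (i:ℝ)/2},
          ((meromorphicOrderAt (L x.1) x.2).untop₀ : ℂ) * x.1.1 a *
            Complex.exp ((u * x.2.im : ℝ) * I)‖ ≤ b) ∧
      ∀ r : ℝ, Growth i (square N P fun _ => {1}) r →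
        ((∑ᶠ x ∈ {x : PrimChar × ℂ | x.2.re = 1 + (i:ℝ)/2},
          (meromorphicOrderAt (L x.1) x.2).untop₀ ^ 2 : ℤ) : ℝ) ≤ r ∧
        (r < 2 →
          (∀ x y : PrimChar × ℂ, x.2.re = 1 + (i:ℝ)/2 → y.2.re = 1 + (i:ℝ)/2 →
            meromorphicOrderAt (L x.1) x.2 ≠ 0 → meromorphicOrderAt (L y.1) y.2 ≠ 0 → x = y) ∧
          ∀ (ψ : PrimChar) (s : ℂ), s.re = 1 + (i:ℝ)/2 → meromorphicOrderAt (L ψ) s ≠ 0 →
            (meromorphicOrderAt (L ψ) s = 1 ∨ meromorphicOrderAt (L ψ) s = -1) ∧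
            ((∀ p : ℕ, p.Prime → ¬ p ∣ N →
                ∀ n, (starRingEnd ℂ) ((P p).coeff n) = (P p).coeff n) →
              (∀ n, (starRingEnd ℂ) (ψ.1 n) = ψ.1 n) ∧ s = 1 + (i:ℂ)/2))) ∧
    (∀ (J : Type) (B : J → ℕ → Multiset ℂ), RankinSelberg N B → ∀ L : J → J → ℂ → ℂ,
      (∀ (j k : J) (s : ℂ), 1 + (i:ℝ)/2 < s.re → L j k s = twist N P (B j) (B k) s) →
      (∀ S S' : Finset (J × ℝ), ∃ C : ℝ, ∀ h : ℝ, 0 < h → h ≤ 1 → ∀ v w : J × ℝ → ℝ,
        |∑ x ∈ S, ∑ y ∈ S', v x * w y *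
          Real.log ‖L x.1 y.1 (1 + (i:ℂ)/2 + (h:ℂ) + ((x.2 - y.2 : ℝ):ℂ) * I)‖| ≤
        (b * Real.log (1/h) + C) *
          (Real.sqrt (∑ x ∈ S, v x ^ 2) * Real.sqrt (∑ y ∈ S', w y ^ 2))) ∧
      (∀ S S' : Finset (J × ℝ),
        (∀ x ∈ S, ∀ y ∈ S',
          MeromorphicAt (L x.1 y.1) (1 + (i:ℂ)/2 + ((x.2 - y.2 : ℝ):ℂ) * I)) →
        ∀ v w : J × ℝ → ℝ,
        |∑ x ∈ S, ∑ y ∈ S', v x * w y * ((meromorphicOrderAt (L x.1 y.1)
          (1 + (i:ℂ)/2 + ((x.2 - y.2 : ℝ):ℂ) * I)).untop₀ : ℝ)| ≤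
        b * (Real.sqrt (∑ x ∈ S, v x ^ 2) * Real.sqrt (∑ y ∈ S', w y ^ 2))) ∧
      ∀ j : J,
        (∀ S : Finset (J × ℝ), ∃ C : ℝ, ∀ h : ℝ, 0 < h → h ≤ 1 →
          ∑ x ∈ S, Real.log ‖L j x.1 (1 + (i:ℂ)/2 + (h:ℂ) + (x.2:ℂ) * I)‖ ^ 2 ≤
            Real.log ‖square N P (B j) (1 + (i:ℂ) + (h:ℂ))‖ * (Real.log (1/h) + C)) ∧
        Growth i (square N P (B j)) ((b:ℝ) ^ 2) ∧
        ((∀ (k : J) (s : ℂ), s.re = 1 + (i:ℝ)/2 → MeromorphicAt (L j k) s) →
          (∀ (k : J) (s : ℂ), s.re = 1 + (i:ℝ)/2 → meromorphicOrderAt (L j k) s ≠ ⊤) ∧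
          {x : J × ℂ | x.2.re = 1 + (i:ℝ)/2 ∧ meromorphicOrderAt (L j x.1) x.2 ≠ 0}.Finite ∧
          ∑ᶠ x ∈ {x : J × ℂ | x.2.re = 1 + (i:ℝ)/2},
            (meromorphicOrderAt (L j x.1) x.2).untop₀ ^ 2 ≤ (b:ℤ) ^ 2 ∧
          ∀ r : ℝ, Growth i (square N P (B j)) r →
            ((∑ᶠ x ∈ {x : J × ℂ | x.2.re = 1 + (i:ℝ)/2},
              (meromorphicOrderAt (L j x.1) x.2).untop₀ ^ 2 : ℤ) : ℝ) ≤ r)) ∧
    RankinSelberg N fun (ψ : PrimChar) (p : ℕ) => ({ψ.1 p} : Multiset ℂ) := by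
  have H : Hyp N i b P := ⟨hN, h0, hdeg, hroots⟩
  refine ⟨⟨?_, ?_⟩, ?_, ofRS (rs_prim hN)⟩
  · have h1 := Pool.Agent.H5.ATW2.grow_sq H (rs_prim hN) pone
    have h2 : (fun p : ℕ => ({(pone : {ψ : ℕ → ℂ // Prim ψ}).1 p} : Multiset ℂ)) =
        fun _ => {1} := by
      funext p
      simp [pone]
    rw [h2] at h1
    exact h1
  · intro L hL hm
    obtain ⟨h1, h2, h3⟩ := prim_sq H L hL hm
    refine ⟨h1, h2, h3, prim_fourier H L hL hm, fun r hr => ⟨?_, fun hr2 => ?_⟩⟩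
    · exact Pool.Agent.H5.ATW2.prim_grow H L hL hm hr
    · exact Pool.Agent.H5.ATW2.prim_one H L hL hm hr hr2
  · intro J B hB L hL
    have hL' : ∀ (j k : J) (s : ℂ), 1 + (i:ℝ)/2 < s.re → L j k s = EP N P (B j) (B k) s := by
      intro j k s hs
      rw [hL j k s hs, twist_eq]
    have hR := toRS hB
    refine ⟨bilinear H hR L hL', orders H hR L hL', fun j => ⟨?_, ?_, fun hm => ?_⟩⟩
    · exact Pool.Agent.H5.ATW2.bessel H hR L hL' j
    · exact Pool.Agent.H5.ATW2.grow_sq H hR j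
    · obtain ⟨h1, h2, h3⟩ := orders_sq H hR L hL' j hm
      exact ⟨h1, h2, h3, fun r hr => Pool.Agent.H5.ATW2.orders_grow H hR L hL' j hm hr⟩

end Pool.Agent.Results.MP_7193be_nt.AutomorphicTwists
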