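import Mathlib
import Pool.Agent.H91.GR.Behave

open Complex Filter Topology MeasureTheory

namespace Pool.Agent.Results.MP_7193be_nt.EdgeBehaviour

open Pool.Agent.H91.GR (behave bounds)

/-- The behaviour of Euler products of Hasse-Weil type at the edge `Re s = 1 + i/2` of absolute
convergence, for a countable family of them, with no continuation assumed. For a variety `X` over
`ℤ[1/N]`, `P p` is the characteristic polynomial of the Frobenius on `H^i` of the fibre at `p`, and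
twists by Dirichlet characters and by fixed `it` are again of this kind, so that all `X`, all `i`
and all Dirichlet characters are one family.

(1) Boundary values `E k t ≠ 0`: for every `γ < 1/2` they exist for all members `k` at once, as limits
of the partial Euler products with an error `O((log x)^(-γ'))` for some `γ' > γ`, and as limits of
the L-function in all sectors, for `t` outside a set of Hausdorff dimension at most `2γ`.

(2) Joint limit laws. For `φ` continuous on `(ℂ ∖ 0)^n` and of growth at most `l` in all `z j` and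
`1 / z j`, the means of `φ` over the random Euler products, in which `p^(-it)` is replaced by
independent random phases, converge to a number `m`. This is the limit of the means over the `t` in
windows `[a, a + T]` with all `|E (e j) t|` between `T^(-c)` and `T^c`, uniformly in `a`, if `c l < 1`,
and of the means over all `t` in the window if all `b l < 1`; and it is the limit of the means over all
Dirichlet characters `ψ` modulo `q` (the principal and the imprimitive ones included; the primes that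
divide `q` drop out of the twisted products, so the least prime factor of `q` goes to infinity)
at `1 + i/2 + h + it`, uniformly in the height `t` and in `h` between `q^(-d)` and a bound
that depends on `ε`, if all `d b l < 1`.

(3) A sharp inequality: for a nonnegative even integrable weight `w` with nonnegative cosine transform
the integral of `w (t - t0) * |E k t| ^ l` is at most that of `w t * |zeta (1 + it)| ^ (b |l|)`.

(4) Large and small values, for all members of degree at most `β` with one constant `C`: the set of the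
`t` in `[a, a + T]` with `|E k t|` outside `[V^(-b), V^b]` has measure at most `T^(C loglog T / V)` for
`1 ≤ V ≤ log T`, and at most `C T exp(-exp(V / C))` if `V ≤ loglog T`; the number of the characters
modulo `q`, for every `q ≥ C`, with a value outside `[V^(-b), V^b]` at `1 + i/2 + h + it`, `h ≥ 1/q`, is
at most `q^(C loglog q / V)`, and at most `C φ(q) exp(-exp(V / C))` if `V ≤ loglog q`. -/
theorem result {κ : Type} [Countable κ] (N i b : κ → ℕ) (P : κ → ℕ → Polynomial ℂ)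
    (hN : ∀ k, 0 < N k)
    (h0 : ∀ k, ∀ p : ℕ, p.Prime → ¬ p ∣ N k → (P k p).eval 0 = 1)
    (hdeg : ∀ k, ∀ p : ℕ, p.Prime → ¬ p ∣ N k → (P k p).natDegree ≤ b k)
    (hroots : ∀ k, ∀ p : ℕ, p.Prime → ¬ p ∣ N k → ∀ z : ℂ, (P k p).IsRoot z →
      (p:ℝ) ^ (-(i k:ℝ)/2) ≤ ‖z‖) :
    ∃ E : κ → ℝ → ℂ,
      (∀ γ : ℝ, 0 ≤ γ → γ < 1/2 → ∃ Z : Set ℝ, dimH Z ≤ ENNReal.ofReal (2 * γ) ∧
        ∀ t : ℝ, t ∉ Z → ∃ γ' : ℝ, γ < γ' ∧ ∀ k : κ, E k t ≠ 0 ∧
          Tendsto (fun x : ℕ => ∏ p ∈ (Finset.range (x + 1)).filter (fun p => p.Prime ∧ ¬ p ∣ N k),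
            ((P k p).eval ((p:ℂ) ^ (-(1 + (i k:ℂ)/2 + t * I))))⁻¹) atTop (𝓝 (E k t)) ∧
          (∃ C : ℝ, ∀ x : ℕ, 2 ≤ x →
            ‖(∏ p ∈ (Finset.range (x + 1)).filter (fun p => p.Prime ∧ ¬ p ∣ N k),
              ((P k p).eval ((p:ℂ) ^ (-(1 + (i k:ℂ)/2 + t * I))))⁻¹) - E k t‖ ≤
                C * Real.log x ^ (-γ')) ∧
          ∀ M : ℝ, Tendsto (fun s : ℂ => ∏' p : {p : ℕ // p.Prime ∧ ¬ p ∣ N k},
              ((P k p).eval ((p:ℂ)^(-s)))⁻¹)
            (𝓝[{s : ℂ | 1 + (i k:ℝ)/2 < s.re ∧ |s.im - t| ≤ M * (s.re - (1 + (i k:ℝ)/2))}]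
              (1 + (i k:ℂ)/2 + t * I)) (𝓝 (E k t))) ∧
      (∀ (n : ℕ) (e : Fin n → κ) (φ : (Fin n → ℂ) → ℂ) (l C : ℝ), 0 ≤ l →
        ContinuousOn φ {z | ∀ j, z j ≠ 0} →
        (∀ z : Fin n → ℂ, (∀ j, z j ≠ 0) → ‖φ z‖ ≤ C * (1 + ∑ j, (‖z j‖ ^ l + ‖z j‖ ^ (-l)))) →
        ∃ m : ℂ,
          Tendsto (fun y : ℕ => ∫ θ in {θ : Nat.primesBelow (y + 1) → ℝ | ∀ p, θ p ∈ Set.Ioc (0:ℝ) 1},
            φ (fun j => ∏ p : Nat.primesBelow (y + 1), if (p:ℕ) ∣ N (e j) then 1 else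
              ((P (e j) p).eval (cexp (2 * Real.pi * θ p * I) *
                ((p:ℕ):ℂ) ^ (-(1 + (i (e j):ℂ)/2))))⁻¹)) atTop (𝓝 m) ∧
          (∀ c : ℝ, 0 < c → c * l < 1 → ∀ ε : ℝ, 0 < ε →
            ∃ T0 : ℝ, 0 < T0 ∧ ∀ T : ℝ, T0 ≤ T → ∀ a : ℝ,
              IntegrableOn (fun t => φ (fun j => E (e j) t)) (Set.Icc a (a + T) ∩
                {t | ∀ j, T ^ (-c) ≤ ‖E (e j) t‖ ∧ ‖E (e j) t‖ ≤ T ^ c}) ∧
              ‖(∫ t in Set.Icc a (a + T) ∩ {t | ∀ j, T ^ (-c) ≤ ‖E (e j) t‖ ∧ ‖E (e j) t‖ ≤ T ^ c},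
                φ (fun j => E (e j) t)) / T - m‖ ≤ ε) ∧
          ((∀ j, (b (e j) : ℝ) * l < 1) →
            (∀ a c : ℝ, IntervalIntegrable (fun t => φ (fun j => E (e j) t)) volume a c) ∧
            ∀ ε : ℝ, 0 < ε → ∃ T0 : ℝ, 0 < T0 ∧ ∀ T : ℝ, T0 ≤ T → ∀ a : ℝ,
              ‖(∫ t in a..(a + T), φ (fun j => E (e j) t)) / T - m‖ ≤ ε) ∧
          ∀ d : ℝ, 0 ≤ d → (∀ j, d * ((b (e j) : ℝ) * l) < 1) → ∀ ε : ℝ, 0 < ε →
            ∃ (Q : ℕ) (δ : ℝ), 0 < δ ∧ ∀ (q : ℕ) [NeZero q], (∀ p : ℕ, p.Prime → p ∣ q → Q ≤ p) →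
              ∀ h t : ℝ, (q : ℝ) ^ (-d) ≤ h → h ≤ δ →
                ‖(∑ ψ : DirichletCharacter ℂ q,
                  φ (fun j => ∏' p : {p : ℕ // p.Prime ∧ ¬ p ∣ N (e j)},
                    ((P (e j) p).eval (ψ (p : ℕ) *
                      ((p : ℕ) : ℂ) ^ (-(1 + (i (e j):ℂ)/2 + h + t * I))))⁻¹)) /
                    (q.totient : ℂ) - m‖ ≤ ε) ∧
      (∀ (k : κ) (w : ℝ → ℝ) (l t0 : ℝ), Integrable w → (∀ t, 0 ≤ w t) → (∀ t, w (-t) = w t) →
        (∀ ν : ℝ, 0 ≤ ∫ t, w t * Real.cos (ν * t)) →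
        Integrable (fun t => w t * (|t|⁻¹ + |t|) ^ (b k * |l|)) →
        Integrable (fun t => w (t - t0) * ‖E k t‖ ^ l) ∧
        Integrable (fun t => w t * ‖riemannZeta (1 + t * I)‖ ^ (b k * |l|)) ∧
        ∫ t, w (t - t0) * ‖E k t‖ ^ l ≤ ∫ t, w t * ‖riemannZeta (1 + t * I)‖ ^ (b k * |l|)) ∧
      ∀ β : ℕ, ∃ C : ℝ, 1 ≤ C ∧ ∀ (k : κ) (V : ℝ), b k ≤ β → 1 ≤ V →
        (∀ T : ℝ, C ≤ T → V ≤ Real.log T → ∀ a : ℝ,
          volume {t | t ∈ Set.Icc a (a + T) ∧ ¬ ((V ^ b k)⁻¹ ≤ ‖E k t‖ ∧ ‖E k t‖ ≤ V ^ b k)} ≤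
            ENNReal.ofReal (T ^ (C * Real.log (Real.log T) / V)) ∧
          (V ≤ Real.log (Real.log T) →
            volume {t | t ∈ Set.Icc a (a + T) ∧ ¬ ((V ^ b k)⁻¹ ≤ ‖E k t‖ ∧ ‖E k t‖ ≤ V ^ b k)} ≤
              ENNReal.ofReal (C * T * Real.exp (-Real.exp (V / C))))) ∧
        ∀ (q : ℕ) [NeZero q], C ≤ q → V ≤ Real.log q → ∀ h t : ℝ, 1 / (q:ℝ) ≤ h →
          (({ψ : DirichletCharacter ℂ q | ¬ ((V ^ b k)⁻¹ ≤
              ‖∏' p : {p : ℕ // p.Prime ∧ ¬ p ∣ N k}, ((P k p).eval (ψ (p : ℕ) *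
                ((p : ℕ) : ℂ) ^ (-(1 + (i k:ℂ)/2 + h + t * I))))⁻¹‖ ∧
              ‖∏' p : {p : ℕ // p.Prime ∧ ¬ p ∣ N k}, ((P k p).eval (ψ (p : ℕ) *
                ((p : ℕ) : ℂ) ^ (-(1 + (i k:ℂ)/2 + h + t * I))))⁻¹‖ ≤ V ^ b k)}.ncard : ℝ) ≤
            (q:ℝ) ^ (C * Real.log (Real.log q) / V)) ∧
          (V ≤ Real.log (Real.log q) →
            ({ψ : DirichletCharacter ℂ q | ¬ ((V ^ b k)⁻¹ ≤
              ‖∏' p : {p : ℕ // p.Prime ∧ ¬ p ∣ N k}, ((P k p).eval (ψ (p : ℕ) *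
                ((p : ℕ) : ℂ) ^ (-(1 + (i k:ℂ)/2 + h + t * I))))⁻¹‖ ∧
              ‖∏' p : {p : ℕ // p.Prime ∧ ¬ p ∣ N k}, ((P k p).eval (ψ (p : ℕ) *
                ((p : ℕ) : ℂ) ^ (-(1 + (i k:ℂ)/2 + h + t * I))))⁻¹‖ ≤ V ^ b k)}.ncard : ℝ) ≤
              C * q.totient * Real.exp (-Real.exp (V / C))) := by
  have H : ∀ k, Pool.Agent.H89.EdgeBasic.Hyp (N k) (i k) (b k) (P k) := fun k =>
    ⟨hN k, h0 k, hdeg k, hroots k⟩
  obtain ⟨E, hE1, hE2, hE3, hE4⟩ := behave N i b P H (fun k γ h0 h1 => Pool.H48.ER.rateP (H k) h0 h1)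
  refine ⟨E, ?_, hE2, hE3, fun β => bounds N i b P H hE4 β⟩
  intro γ hγ0 hγ1
  set g : ℕ → ℝ := fun m => γ + (1/2 - γ) * (1 / ((m:ℝ) + 1)) / 2 with hg
  have hpos : 0 < 1/2 - γ := by linarith
  have hlt : ∀ m, γ < g m := by
    intro m
    have : 0 < (1/2 - γ) * (1 / ((m:ℝ) + 1)) / 2 := by positivity
    simp only [hg]
    linarith
  have hlt2 : ∀ m, g m < 1/2 := by
    intro m
    have h2 : 1 / ((m:ℝ) + 1) ≤ 1 := by
      rw [div_le_one (by positivity)]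
      have : (0:ℝ) ≤ m := Nat.cast_nonneg m
      linarith
    have h3 : (1/2 - γ) * (1 / ((m:ℝ) + 1)) ≤ (1/2 - γ) * 1 :=
      mul_le_mul_of_nonneg_left h2 hpos.le
    simp only [hg]
    linarith
  choose Z hZ hZ2 using fun m => hE1 (g m) (hγ0.trans (hlt m).le) (hlt2 m)
  refine ⟨⋂ m, Z m, ?_, ?_⟩
  · have hlim : Tendsto (fun m => ENNReal.ofReal (2 * g m)) atTop (𝓝 (ENNReal.ofReal (2 * γ))) := by
      apply ENNReal.tendsto_ofReal
      apply Tendsto.const_mul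
      have h2 : Tendsto (fun m : ℕ => γ + (1/2 - γ) * (1 / ((m:ℝ) + 1)) / 2) atTop
          (𝓝 (γ + (1/2 - γ) * 0 / 2)) :=
        ((tendsto_one_div_add_atTop_nhds_zero_nat.const_mul _).div_const 2).const_add γ
      rw [mul_zero, zero_div, add_zero] at h2
      exact h2
    apply ge_of_tendsto' hlim
    intro m
    exact (dimH_mono (Set.iInter_subset _ m)).trans (hZ m)
  · intro t ht
    rw [Set.mem_iInter, not_forall] at ht
    obtain ⟨m, hm⟩ := ht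
    exact ⟨g m, hlt m, fun k => hZ2 m t hm k⟩

end Pool.Agent.Results.MP_7193be_nt.EdgeBehaviour
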