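import Pool.Agent.H9.OS1.Main

/-!
Meromorphic continuation (or the Riemann hypothesis) for all Hasse-Weil L-functions is equivalent
to the continuation of the zeta functions of one explicit sequence of smooth affine cubic
hypersurfaces `X_m` over `ℤ` by a strip of width `O (m)` beyond the half plane where it is known;
the dimension of `X_m` is about `(3/2) m ^ 4`.
-/

namespace Pool.Agent.Results.MP_7193be_nt.OneSequence

open Finset Pool.OS1

/-- **Theorem.**  `X_m` is the smooth affine cubic hypersurface `F_m = 1` over `ℤ`, of dimension
`D = vars m - 1`, where `2 * vars m = m ^ 2 * (3 * m ^ 2 + 2 * m + 5)`.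

(0) The zeta function of `X_m` extends to a meromorphic function on the half plane
`Re s > D - 2 * m ^ 2 + m + 1`.

Let `E` be a set of real numbers with `E + 1 = E` (for instance all real numbers, or all half
integers).

(I) The following are equivalent.

* `Strips E`: for every `K` there are infinitely many `m` such that the zeta function of `X_m`
  extends to a meromorphic function on the half plane `Re s > D - 2 * m ^ 2 - K * m`, all of
  whose zeros and poles there have real part in `E`.
* For all `N`, the L-function of every element of the ring generated by the point counts of all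
  affine and of all projective schemes over `ℤ[1/N]` and by the traces of Frobenius on the
  exterior powers of the cohomology of all projective `X` with Frobenius eigenvalues as in `Weil`
  (purity and trace formula; for `X` smooth over `ℤ[1/N]` this is Deligne's theorem) extends to a
  meromorphic function on `ℂ`, all of whose zeros and poles have real part in `E`.

They imply the same for each single L-function
`L(i; X, s) = ∏_p ∏_j (1 - α i p j * p ^ (-s))⁻¹` of every `X` as before, with Frobenius
eigenvalues `α i p j` on its `i`-th cohomology.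

(II) For one scheme `X` with point counts `c` and Frobenius eigenvalues `α`: the zeta functions of
all products of symmetric powers of `X` extend in this way if and only if the L-functions of all
tensor products of exterior powers of the cohomology spaces of `X` do. -/
theorem result :
    (∀ m : ℕ, 2 * vars m = m ^ 2 * (3 * m ^ 2 + 2 * m + 5) ∧
      ∀ c, Cubic m c → Good Set.univ {s | (vars m : ℝ) - 1 - 2 * m ^ 2 + m + 1 < s.re} (LF 1 c)) ∧
    ∀ E : Set ℝ, (∀ x : ℝ, x + 1 ∈ E ↔ x ∈ E) →
      (Strips E ↔ ∀ N t, InRing N t → Good E Set.univ (LF N t)) ∧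
      (Strips E →
        ∀ (σ : Type) [Finite σ] (F : Finset (MvPolynomial σ ℤ)) (N n : ℕ) (b : ℕ → ℕ)
          (α : ℕ → ℕ → ℕ → ℂ) (c : ℕ → ℕ → ℂ), Projective F N c → Weil N n b α c →
          ∀ i < n, Good E Set.univ (fun s => ∏' p : {p : ℕ // p.Prime ∧ ¬ p ∣ N},
            (∏ j ∈ range (b i), (1 - α i p j * (p : ℂ) ^ (-s)))⁻¹)) ∧
      ∀ (N n : ℕ) (b : ℕ → ℕ) (α : ℕ → ℕ → ℕ → ℂ) (c : ℕ → ℕ → ℤ) (h : ℕ → ℕ → ℕ → ℂ),
        Weil N n b α (fun p k => c p k) → IsSym (fun p k => c p k) h →
        ((∀ l : List ℕ, Good E Set.univ (LF N fun p k => (l.map fun i => h i p k).prod)) ↔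
          ∀ l : List (ℕ × ℕ), (∀ z ∈ l, z.1 < n) →
            Good E Set.univ (LF N fun p k => (l.map fun z => ext (b z.1) (α z.1) z.2 p k).prod)) :=
  ⟨fun m => ⟨Pool.Agent.H9.OS1.vars_eq m, fun _ hc => Pool.Agent.H9.OS1.known m hc⟩,
    fun _ hE => ⟨Pool.Agent.H9.OS1.main_iff hE,
      fun h σ _ F N n b α c hc hW i hi =>
        Pool.Agent.H9.OS1.single hE h σ F N n b α c hc hW i hi,
      fun N n b α c h hW hh => Pool.Agent.H9.OS1.one hE N n b α c h hW hh⟩⟩

end Pool.Agent.Results.MP_7193be_nt.OneSequence
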