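import Pool.Agent.H94.HWD.Bridge

/-!
Parts (a)-(d) of the problem, for all degrees `i` and all projective schemes of dimension at most
`d`, are equivalent to the same for the determinantal hypersurfaces in `ℙ^(d+1)`, for the linear
sections of codimension `d + 2` of Segre varieties, and for smooth affine cubic hypersurfaces.

`PartsIn G N` says that the numbers of points `N p k` over the fields with `p ^ k` elements are
sums of parts which are pure of integral weights, and that for every `w` the `L`-function of the
part of weight `w` belongs to the group `G w`.  For a smooth projective scheme over `ℤ[1/N]` the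
part of weight `w` has the `L`-function `L(w; X, s) ^ ((-1) ^ w)`, by Deligne.
-/

namespace Pool.Agent.Results.MP_7193be_nt.SegreReduction

open Pool.Agent.H94.HWD

/-- **Theorem.**  Let `d` be a natural number and let `G` be a family of groups of functions, one
for every weight, compatible with shifts.  The following are equivalent.

(A) For every closed subscheme of a projective space over `ℤ` whose fibre over `ℚ` has dimension at
most `d`, the `L`-functions of the parts of all weights `w` belong to `G w`, after the removal of
the primes dividing any multiple `M` of a suitable number.

(B) The same holds for the hypersurfaces `det (x_0 A_0 + ... + x_(d+1) A_(d+1)) = 0` in `ℙ^(d+1)`,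
where the `A_i` are square matrices, of any size, with entries in `{-1, 0, 1}`.

(C) The same holds for the linear sections of the Segre varieties `ℙ^(a-1) × ℙ^(b-1)`, for all `a`,
`b`, cut out by `d + 2` bilinear forms with coefficients in `{-1, 0, 1}`.

(D) The same holds for the affine cubic hypersurfaces
`x_0 B_0 (y, z) + ... + x_(d+1) B_(d+1) (y, z) = 1`, which are smooth over `ℤ`, for all such
bilinear forms. -/
theorem result (G : Family) (d : ℕ) : List.TFAE [
    (∀ (n : ℕ) (F : Finset (MvPolynomial (Fin (n + 1)) ℤ)),
      (∀ f ∈ F, ∃ e : ℕ, f.IsHomogeneous e) → DimLE F d → In G (projNum F)),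
    (∀ (a : ℕ) (T : Fin (d + 2) → Fin a → Fin a → ℤ), Small T → In G (detNum T)),
    (∀ (a b : ℕ) (T : Fin (d + 2) → Fin a → Fin b → ℤ), Small T → In G (segreNum T)),
    (∀ (a b : ℕ) (T : Fin (d + 2) → Fin a → Fin b → ℤ), Small T → In G (cubicNum T))] :=
  main G d

end Pool.Agent.Results.MP_7193be_nt.SegreReduction
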